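import Mathlib

set_option autoImplicit false

namespace Run7.h832.HomBent

open Finset

/-- The sign character of `ZMod 2`. -/
def chi (z : ZMod 2) : ℤ := (-1 : ℤ) ^ (ZMod.val z)

lemma chi_add (z w : ZMod 2) : chi (z + w) = chi z * chi w := by
  revert z w; decide

lemma chi_zero : chi 0 = 1 := by decide

lemma chi_sum {J : Type*} (s : Finset J) (g : J → ZMod 2) :
    chi (∑ j ∈ s, g j) = ∏ j ∈ s, chi (g j) := by
  classical
  induction s using Finset.induction_on with
  | empty => simp [chi_zero]
  | insert a s ha ih => rw [Finset.sum_insert ha, Finset.prod_insert ha, chi_add, ih]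

lemma chi_sq (z : ZMod 2) : chi z ^ 2 = 1 := by
  revert z; decide

lemma chi_pair (c : ZMod 2) : (∑ b : ZMod 2, chi (b * c)) = if c = 0 then 2 else 0 := by
  revert c; decide

/-- The existence statement for homogeneous bent functions of degree `k` over an index type. -/
def HasHomBent (ι : Type) [Fintype ι] [DecidableEq ι] (k : ℕ) : Prop :=
  ∃ S : Finset (Finset ι), (∀ s ∈ S, s.card = k) ∧
    ∀ a : ι → ZMod 2,
      (∑ x : ι → ZMod 2,
          (-1 : ℤ) ^ (ZMod.val ((∑ s ∈ S, ∏ i ∈ s, x i) + ∑ i : ι, a i * x i))) ^ 2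
        = 2 ^ (Fintype.card ι)

lemma HasHomBent.transport {ι κ : Type} [Fintype ι] [DecidableEq ι] [Fintype κ] [DecidableEq κ]
    (e : ι ≃ κ) {k : ℕ} (h : HasHomBent ι k) : HasHomBent κ k := by
  obtain ⟨S, hS, hb⟩ := h
  refine ⟨S.map e.finsetCongr.toEmbedding, ?_, ?_⟩
  · intro s hs
    rw [Finset.mem_map] at hs
    obtain ⟨t, ht, rfl⟩ := hs
    simp [hS t ht]
  · intro a
    have h1 := hb (fun i => a (e i))
    rw [← Fintype.card_congr e, ← h1]
    congr 1
    refine (Fintype.sum_equiv (Equiv.arrowCongr e (Equiv.refl (ZMod 2))) _ _ ?_).symm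
    intro x
    congr 2
    congr 1
    · rw [Finset.sum_map]
      apply Finset.sum_congr rfl
      intro s _
      simp [Equiv.finsetCongr_apply, Finset.prod_map, Equiv.arrowCongr_apply]
    · rw [← Equiv.sum_comp e]
      simp [Equiv.arrowCongr_apply]

/-- `Rep k F`: the function `F` is given by a polynomial with all monomials of size at most `k`. -/
def Rep {ι : Type} [Fintype ι] [DecidableEq ι] (k : ℕ) (F : (ι → ZMod 2) → ZMod 2) : Prop :=
  ∃ c : Finset ι → ZMod 2, (∀ s, k < s.card → c s = 0) ∧
    ∀ x, F x = ∑ s : Finset ι, c s * ∏ i ∈ s, x i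

section rep
variable {ι : Type} [Fintype ι] [DecidableEq ι]

set_option linter.unusedSectionVars false

lemma Rep.mono {k l : ℕ} (h : k ≤ l) {F : (ι → ZMod 2) → ZMod 2} (hF : Rep k F) : Rep l F := by
  obtain ⟨c, hc, hx⟩ := hF
  exact ⟨c, fun s hs => hc s (by omega), hx⟩

lemma Rep.add {k : ℕ} {F G : (ι → ZMod 2) → ZMod 2} (hF : Rep k F) (hG : Rep k G) :
    Rep k (fun x => F x + G x) := by
  obtain ⟨c, hc, hx⟩ := hF
  obtain ⟨d, hd, hy⟩ := hG
  refine ⟨fun s => c s + d s, fun s hs => by simp [hc s hs, hd s hs], fun x => ?_⟩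
  simp only [hx, hy, add_mul, Finset.sum_add_distrib]

lemma Rep.zero (k : ℕ) : Rep k (fun _ : ι → ZMod 2 => (0 : ZMod 2)) :=
  ⟨fun _ => 0, fun _ _ => rfl, fun x => by simp⟩

lemma Rep.one (k : ℕ) : Rep k (fun _ : ι → ZMod 2 => (1 : ZMod 2)) := by
  refine ⟨fun s => if s = ∅ then 1 else 0, fun s hs => ?_, fun x => ?_⟩
  · have : s ≠ ∅ := by
      rintro rfl
      simp at hs
    simp [this]
  · rw [Finset.sum_eq_single (∅ : Finset ι)]
    · simp
    · intro b _ hb
      simp [hb]
    · intro h
      exact absurd (Finset.mem_univ _) h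

lemma Rep.coord (i : ι) : Rep 1 (fun x : ι → ZMod 2 => x i) := by
  refine ⟨fun s => if s = {i} then 1 else 0, fun s hs => ?_, fun x => ?_⟩
  · have : s ≠ {i} := by
      rintro rfl
      simp at hs
    simp [this]
  · rw [Finset.sum_eq_single ({i} : Finset ι)]
    · simp
    · intro b _ hb
      simp [hb]
    · intro h
      exact absurd (Finset.mem_univ _) h

lemma zmod2_mul_self (z : ZMod 2) : z * z = z := by
  revert z; decide

lemma prod_mul_prod_union (s t : Finset ι) (x : ι → ZMod 2) :
    (∏ i ∈ s, x i) * (∏ i ∈ t, x i) = ∏ i ∈ s ∪ t, x i := by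
  rw [← Finset.prod_union_inter, ← Finset.sdiff_union_inter s t]
  have h1 : (∏ i ∈ (s \ t ∪ s ∩ t) ∪ t, x i) = ∏ i ∈ s ∪ t, x i := by
    rw [Finset.sdiff_union_inter]
  have h2 : (s \ t ∪ s ∩ t) ∩ t = s ∩ t := by
    rw [Finset.sdiff_union_inter]
  rw [h2, h1]
  have h3 : s ∩ t ⊆ s ∪ t := fun a ha => by
    simp at ha ⊢
    exact Or.inl ha.1
  rw [← Finset.prod_sdiff h3, mul_assoc, ← Finset.prod_mul_distrib]
  simp [zmod2_mul_self]

lemma Rep.mul {k l : ℕ} {F G : (ι → ZMod 2) → ZMod 2} (hF : Rep k F) (hG : Rep l G) :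
    Rep (k + l) (fun x => F x * G x) := by
  obtain ⟨c, hc, hx⟩ := hF
  obtain ⟨d, hd, hy⟩ := hG
  refine ⟨fun u => ∑ s : Finset ι, ∑ t : Finset ι, if s ∪ t = u then c s * d t else 0,
    fun u hu => ?_, fun x => ?_⟩
  · apply Finset.sum_eq_zero
    intro s _
    apply Finset.sum_eq_zero
    intro t _
    split_ifs with h
    · have h1 : u.card ≤ s.card + t.card := by
        rw [← h]; exact Finset.card_union_le s t
      by_cases hs : k < s.card
      · simp [hc s hs]
      · have : l < t.card := by omega
        simp [hd t this]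
    · rfl
  · have hxy : F x * G x = (∑ s : Finset ι, c s * ∏ i ∈ s, x i) *
        ∑ t : Finset ι, d t * ∏ i ∈ t, x i := by rw [hx, hy]
    change F x * G x = ∑ u : Finset ι,
      (∑ s : Finset ι, ∑ t : Finset ι, if s ∪ t = u then c s * d t else 0) * ∏ i ∈ u, x i
    rw [hxy, Finset.sum_mul_sum]
    simp only [Finset.sum_mul]
    rw [Finset.sum_comm (s := (Finset.univ : Finset (Finset ι)))
      (t := (Finset.univ : Finset (Finset ι)))
      (f := fun u s => ∑ t : Finset ι, (if s ∪ t = u then c s * d t else 0) * ∏ i ∈ u, x i)]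
    apply Finset.sum_congr rfl
    intro s _
    rw [Finset.sum_comm]
    apply Finset.sum_congr rfl
    intro t _
    rw [Finset.sum_eq_single (s ∪ t)]
    · rw [if_pos rfl, ← prod_mul_prod_union]
      ring
    · intro b _ hb
      rw [if_neg (Ne.symm hb)]
      simp
    · intro h
      exact absurd (Finset.mem_univ _) h

lemma Rep.sum {J : Type*} (s : Finset J) {k : ℕ} (F : J → (ι → ZMod 2) → ZMod 2)
    (h : ∀ j ∈ s, Rep k (F j)) : Rep k (fun x => ∑ j ∈ s, F j x) := by
  classical
  induction s using Finset.induction_on with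
  | empty => simpa using Rep.zero (ι := ι) k
  | insert a s ha ih =>
    simp only [Finset.sum_insert ha]
    exact Rep.add (h a (Finset.mem_insert_self a s))
      (ih (fun j hj => h j (Finset.mem_insert_of_mem hj)))

lemma Rep.prod {J : Type*} (s : Finset J) (F : J → (ι → ZMod 2) → ZMod 2)
    (h : ∀ j ∈ s, Rep 1 (F j)) : Rep s.card (fun x => ∏ j ∈ s, F j x) := by
  classical
  induction s using Finset.induction_on with
  | empty => simpa using Rep.one (ι := ι) 0
  | insert a s ha ih =>
    simp only [Finset.prod_insert ha, Finset.card_insert_of_notMem ha]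
    rw [add_comm]
    exact Rep.mul (h a (Finset.mem_insert_self a s))
      (ih (fun j hj => h j (Finset.mem_insert_of_mem hj)))

/-- Indicator vector of a set. -/
def ind (A : Finset ι) : ι → ZMod 2 := fun i => if i ∈ A then 1 else 0

lemma prod_ind (A s : Finset ι) : (∏ i ∈ s, ind A i) = if s ⊆ A then 1 else 0 := by
  unfold ind
  split_ifs with h
  · exact Finset.prod_eq_one (fun i hi => by simp [h hi])
  · rw [Finset.subset_iff] at h
    push Not at h
    obtain ⟨i, hi, hiA⟩ := h
    exact Finset.prod_eq_zero hi (by simp [hiA])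

/-- A function with all monomials of size at most `k` that vanishes on all vectors of weight less
than `k` is a sum of monomials of size exactly `k`. -/
lemma Rep.homog {k : ℕ} {F : (ι → ZMod 2) → ZMod 2} (hF : Rep k F)
    (h0 : ∀ A : Finset ι, A.card < k → F (ind A) = 0) :
    ∃ S : Finset (Finset ι), (∀ s ∈ S, s.card = k) ∧ ∀ x, F x = ∑ s ∈ S, ∏ i ∈ s, x i := by
  obtain ⟨c, hc, hx⟩ := hF
  have key : ∀ n : ℕ, n < k → ∀ A : Finset ι, A.card = n → c A = 0 := by
    intro n
    induction n using Nat.strong_induction_on with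
    | _ n ih =>
      intro hn A hA
      have h1 := h0 A (by omega)
      rw [hx] at h1
      rw [Finset.sum_eq_single A] at h1
      · rw [prod_ind, if_pos (Finset.Subset.refl A)] at h1
        simpa using h1
      · intro s _ hs
        rw [prod_ind]
        split_ifs with hsub
        · have hlt : s.card < A.card := Finset.card_lt_card (Finset.ssubset_iff_subset_ne.2 ⟨hsub, hs⟩)
          rw [ih s.card (by omega) (by omega) s rfl]
          simp
        · simp
      · intro h
        exact absurd (Finset.mem_univ _) h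
  refine ⟨Finset.univ.filter (fun s => c s = 1), ?_, ?_⟩
  · intro s hs
    rw [Finset.mem_filter] at hs
    by_contra hne
    rcases Nat.lt_or_gt_of_ne hne with h | h
    · have := key s.card h s rfl
      rw [this] at hs
      exact absurd hs.2 (by decide)
    · have := hc s h
      rw [this] at hs
      exact absurd hs.2 (by decide)
  · intro x
    rw [hx, Finset.sum_filter]
    apply Finset.sum_congr rfl
    intro s _
    have : c s = 0 ∨ c s = 1 := by
      generalize c s = z
      revert z; decide
    rcases this with h | h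
    · simp [h]
    · simp [h]

end rep

end Run7.h832.HomBent
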