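import Pool.Agent.Run7.h832.HomBentBase

set_option autoImplicit false

namespace Run7.h832.HomBent

open Finset

lemma choose_two_pow_mod (a : ℕ) : ∀ w : ℕ, (w.choose (2 ^ a)) % 2 = (w / 2 ^ a) % 2 := by
  induction a with
  | zero => intro w; simp
  | succ a ih =>
    intro w
    have h := Choose.choose_modEq_choose_mod_mul_choose_div_nat (p := 2) (n := w) (k := 2 ^ (a + 1))
    have h2 : 2 ^ (a + 1) % 2 = 0 := by rw [pow_succ]; simp
    have h3 : 2 ^ (a + 1) / 2 = 2 ^ a := by rw [pow_succ]; simp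
    rw [h2, h3] at h
    unfold Nat.ModEq at h
    rw [h, Nat.choose_zero_right, one_mul, ih, Nat.div_div_eq_div_mul, pow_succ, mul_comm 2]

lemma choose_cast_zmod (a w : ℕ) (hw : w < 2 ^ (a + 1)) :
    ((w.choose (2 ^ a) : ℕ) : ZMod 2) = if 2 ^ a ≤ w then 1 else 0 := by
  have h := choose_two_pow_mod a w
  have hp : 0 < 2 ^ a := by positivity
  split_ifs with hle
  · have h1 : w / 2 ^ a = 1 := by
      rw [pow_succ] at hw
      have h2 : 1 ≤ w / 2 ^ a := (Nat.one_le_div_iff hp).2 hle
      have h3 : w / 2 ^ a < 2 := Nat.div_lt_of_lt_mul (by linarith)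
      omega
    rw [h1] at h
    have : (((w.choose (2 ^ a)) % 2 : ℕ) : ZMod 2) = ((w.choose (2 ^ a) : ℕ) : ZMod 2) :=
      ZMod.natCast_mod _ 2
    rw [← this, h]
    simp
  · rw [Nat.choose_eq_zero_of_lt (by omega)]
    simp

section core

variable {I : Type} [Fintype I] [DecidableEq I]

/-- Local majority-type sum: the elementary symmetric polynomial of degree `2 ^ a` on `T`. -/
def esum (a : ℕ) (T : Finset I) (y : I → ZMod 2) : ZMod 2 :=
  ∑ A ∈ T.powersetCard (2 ^ a), ∏ j ∈ A, y j

lemma esum_eq (a : ℕ) (T : Finset I) (y : I → ZMod 2) :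
    esum a T y = (((T.filter (fun j => y j = 1)).card.choose (2 ^ a) : ℕ) : ZMod 2) := by
  unfold esum
  have h1 : ∀ A ∈ T.powersetCard (2 ^ a), (∏ j ∈ A, y j) =
      if A ⊆ T.filter (fun j => y j = 1) then (1 : ZMod 2) else 0 := by
    intro A hA
    rw [Finset.mem_powersetCard] at hA
    split_ifs with h
    · apply Finset.prod_eq_one
      intro j hj
      exact (Finset.mem_filter.1 (h hj)).2
    · rw [Finset.subset_iff] at h
      push Not at h
      obtain ⟨j, hj, hj2⟩ := h
      apply Finset.prod_eq_zero hj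
      rw [Finset.mem_filter] at hj2
      push Not at hj2
      have h3 := hj2 (hA.1 hj)
      revert h3
      generalize y j = z
      revert z; decide
  rw [Finset.sum_congr rfl h1, ← Finset.sum_filter, Finset.sum_const, nsmul_eq_mul, mul_one,
    ← Finset.card_powersetCard]
  congr 2
  ext A
  simp only [Finset.mem_filter, Finset.mem_powersetCard]
  constructor
  · rintro ⟨⟨_, h2⟩, h3⟩
    exact ⟨h3, h2⟩
  · rintro ⟨h2, h3⟩
    exact ⟨⟨fun j hj => (Finset.mem_filter.1 (h2 hj)).1, h3⟩, h2⟩

variable (S : I → Finset I) (σ : I ≃ I)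

/-- The linear shift attached to the second half of the coordinates. -/
def shiftv (m : I → ZMod 2) : I → ZMod 2 := fun j => ∑ i, if j ∈ S i then m i else 0

/-- The coordinates in which the function is affine along the second half. -/
def yv (x : I ⊕ I → ZMod 2) : I → ZMod 2 :=
  fun j => x (Sum.inl j) + shiftv S (fun i => x (Sum.inr i)) j

/-- The part of the function depending only on `y`. -/
def hpart (a : ℕ) (y : I → ZMod 2) : ZMod 2 := ∑ i, y (σ i) * esum a (S i) y

/-- The bent function. -/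
def fun0 (a : ℕ) (x : I ⊕ I → ZMod 2) : ZMod 2 :=
  hpart S σ a (yv S x) + ∑ i, x (Sum.inr i) * yv S x (σ i)

lemma rep_yv (j : I) : Rep 1 (fun x : I ⊕ I → ZMod 2 => yv S x j) := by
  unfold yv shiftv
  apply Rep.add (Rep.coord (Sum.inl j))
  apply Rep.sum
  intro i _
  split_ifs with h
  · exact Rep.coord (Sum.inr i)
  · exact Rep.zero 1

lemma rep_fun0 (a : ℕ) : Rep (2 ^ a + 1) (fun0 S σ a) := by
  unfold fun0 hpart esum
  apply Rep.add
  · apply Rep.sum
    intro i _
    rw [add_comm]
    apply Rep.mul (F := fun x : I ⊕ I → ZMod 2 => yv S x (σ i)) (rep_yv S (σ i))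
      (G := fun x : I ⊕ I → ZMod 2 =>
        ∑ A ∈ (S i).powersetCard (2 ^ a), ∏ j ∈ A, yv S x j)
    apply Rep.sum
    intro A hA
    have h := Rep.prod A (fun j => fun x : I ⊕ I → ZMod 2 => yv S x j)
      (fun j _ => rep_yv S j)
    rw [(Finset.mem_powersetCard.1 hA).2] at h
    exact h
  · apply Rep.sum
    intro i _
    have h : Rep (1 + 1) (fun x : I ⊕ I → ZMod 2 => x (Sum.inr i) * yv S x (σ i)) :=
      Rep.mul (Rep.coord (Sum.inr i)) (rep_yv S (σ i))
    exact h.mono (by have : 0 < 2 ^ a := by positivity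
                     omega)

end core

end Run7.h832.HomBent
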