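import Pool.Agent.Run7.h832.HomBentCore

set_option autoImplicit false

namespace Run7.h832.HomBent

open Finset

section main

variable {I : Type} [Fintype I] [DecidableEq I]
variable (S : I → Finset I) (σ : I ≃ I)

/-- The value of `y` at an indicator vector. -/
lemma yv_ind (A : Finset (I ⊕ I)) (j : I) :
    yv S (ind A) j = (if Sum.inl j ∈ A then 1 else 0) +
      ∑ i, if (j ∈ S i ∧ Sum.inr i ∈ A) then (1 : ZMod 2) else 0 := by
  unfold yv shiftv ind
  congr 1
  apply Finset.sum_congr rfl
  intro i _
  by_cases h1 : j ∈ S i <;> by_cases h2 : Sum.inr i ∈ A <;> simp [h1, h2]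

lemma card_sum_split (A : Finset (I ⊕ I)) :
    A.card = (Finset.univ.filter (fun i : I => Sum.inl i ∈ A)).card +
      (Finset.univ.filter (fun i : I => Sum.inr i ∈ A)).card := by
  have h : A = (Finset.univ.filter (fun i : I => Sum.inl i ∈ A)).disjSum
      (Finset.univ.filter (fun i : I => Sum.inr i ∈ A)) := by
    ext x
    cases x <;> simp
  conv_lhs => rw [h]
  rw [Finset.card_disjSum]

/-- The function vanishes on all vectors of weight at most `2 ^ a`. -/
lemma fun0_vanish (a : ℕ)
    (h1 : ∀ i, (S i).card = 2 ^ (a + 1) - 1)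
    (h2 : ∀ i j, i ≠ j → (S i ∩ S j).card ≤ 1)
    (h3 : ∀ i j, σ i ∈ S j → Disjoint (S i) (S j))
    (A : Finset (I ⊕ I)) (hA : A.card < 2 ^ a + 1) :
    fun0 S σ a (ind A) = 0 := by
  have hp : 0 < 2 ^ a := by positivity
  have hpow : 2 ^ (a + 1) = 2 * 2 ^ a := by rw [pow_succ, mul_comm]
  set T := Finset.univ.filter (fun i : I => Sum.inl i ∈ A) with hT
  set J := Finset.univ.filter (fun i : I => Sum.inr i ∈ A) with hJ
  have hcard : A.card = T.card + J.card := card_sum_split A
  set y := yv S (ind A) with hy
  -- a general count
  have hcount : ∀ (i : I) (K : Finset I), i ∉ K → (K.biUnion (fun i' => S i ∩ S i')).card ≤ K.card := by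
    intro i K hK
    calc (K.biUnion (fun i' => S i ∩ S i')).card ≤ ∑ i' ∈ K, (S i ∩ S i').card :=
          Finset.card_biUnion_le
      _ ≤ ∑ i' ∈ K, 1 := by
          apply Finset.sum_le_sum
          intro i' hi'
          apply h2
          rintro rfl
          exact hK hi'
      _ = K.card := by simp
  have hSlt : ∀ i, ∀ B ⊆ S i, B.card < 2 ^ (a + 1) := by
    intro i B hB
    have := Finset.card_le_card hB
    rw [h1 i] at this
    omega
  have hE : ∀ i, esum a (S i) y =
      if 2 ^ a ≤ ((S i).filter (fun j => y j = 1)).card then 1 else 0 := by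
    intro i
    rw [esum_eq, choose_cast_zmod a _ (hSlt i _ (Finset.filter_subset _ _))]
  have key : ∀ i, y (σ i) * esum a (S i) y + ind A (Sum.inr i) * y (σ i) = 0 := by
    intro i
    by_cases hi : Sum.inr i ∈ A
    · -- case `i ∈ J`
      have hiJ : i ∈ J := by simp [hJ, hi]
      have hsub : (S i).filter (fun j => ¬ y j = 1) ⊆
          T ∪ (J.erase i).biUnion (fun i' => S i ∩ S i') := by
        intro j hj
        rw [Finset.mem_filter] at hj
        by_contra hcon
        rw [Finset.mem_union] at hcon
        push Not at hcon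
        obtain ⟨hc1, hc2⟩ := hcon
        apply hj.2
        rw [hy, yv_ind]
        have hc1' : Sum.inl j ∉ A := by
          intro h
          exact hc1 (by simp [hT, h])
        rw [if_neg hc1', zero_add, Finset.sum_eq_single i]
        · rw [if_pos ⟨hj.1, hi⟩]
        · intro i' _ hne
          apply if_neg
          rintro ⟨hj', hi'⟩
          apply hc2
          rw [Finset.mem_biUnion]
          exact ⟨i', Finset.mem_erase.2 ⟨hne, by simp [hJ, hi']⟩,
            Finset.mem_inter.2 ⟨hj.1, hj'⟩⟩
        · intro h
          exact absurd (Finset.mem_univ _) h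
      have hle := Finset.card_le_card hsub
      have hle2 := Finset.card_union_le T ((J.erase i).biUnion (fun i' => S i ∩ S i'))
      have hle3 := hcount i (J.erase i) (Finset.notMem_erase i J)
      have hle4 : (J.erase i).card = J.card - 1 := Finset.card_erase_of_mem hiJ
      have hJpos : 0 < J.card := Finset.card_pos.2 ⟨i, hiJ⟩
      have hsplit := Finset.card_filter_add_card_filter_not (s := S i) (fun j => y j = 1)
      have h1i := h1 i
      rw [hE i, if_pos (by omega)]
      have : ind A (Sum.inr i) = 1 := by simp [ind, hi]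
      rw [this]
      generalize y (σ i) = z
      revert z; decide
    · -- case `i ∉ J`
      have hind : ind A (Sum.inr i) = 0 := by simp [ind, hi]
      rw [hind, zero_mul, add_zero]
      have hiJ : i ∉ J := by simp [hJ, hi]
      by_cases hys : y (σ i) = 0
      · rw [hys, zero_mul]
      · have hlt : ((S i).filter (fun j => y j = 1)).card < 2 ^ a := by
          have hsub : (S i).filter (fun j => y j = 1) ⊆
              (T ∩ S i) ∪ J.biUnion (fun i' => S i ∩ S i') := by
            intro j hj
            rw [Finset.mem_filter] at hj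
            by_contra hcon
            rw [Finset.mem_union] at hcon
            push Not at hcon
            obtain ⟨hc1, hc2⟩ := hcon
            have hy0 : y j = 0 := by
              rw [hy, yv_ind]
              have hc1' : Sum.inl j ∉ A := by
                intro h
                exact hc1 (Finset.mem_inter.2 ⟨by simp [hT, h], hj.1⟩)
              rw [if_neg hc1', zero_add]
              apply Finset.sum_eq_zero
              intro i' _
              apply if_neg
              rintro ⟨hj', hi'⟩
              apply hc2
              rw [Finset.mem_biUnion]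
              exact ⟨i', by simp [hJ, hi'], Finset.mem_inter.2 ⟨hj.1, hj'⟩⟩
            rw [hy0] at hj
            exact absurd hj.2 (by decide)
          have hle := Finset.card_le_card hsub
          have hle2 := Finset.card_union_le (T ∩ S i) (J.biUnion (fun i' => S i ∩ S i'))
          by_cases hTs : σ i ∈ T
          · have hnot : σ i ∉ S i := by
              intro h
              have h4 := h3 i i h
              rw [Finset.disjoint_self_iff_empty] at h4
              have h5 := h1 i
              rw [h4] at h5
              simp at h5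
              omega
            have hTlt : (T ∩ S i).card < T.card := by
              apply Finset.card_lt_card
              rw [Finset.ssubset_iff_of_subset Finset.inter_subset_left]
              exact ⟨σ i, hTs, fun h => hnot (Finset.mem_inter.1 h).2⟩
            have hle3 := hcount i J hiJ
            omega
          · -- there is `i' ∈ J` with `σ i ∈ S i'`
            have hex : ∃ i' ∈ J, σ i ∈ S i' := by
              by_contra hno
              push Not at hno
              apply hys
              rw [hy, yv_ind]
              have hTs' : Sum.inl (σ i) ∉ A := by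
                intro h
                exact hTs (by simp [hT, h])
              rw [if_neg hTs', zero_add]
              apply Finset.sum_eq_zero
              intro i' _
              apply if_neg
              rintro ⟨hj', hi'⟩
              exact hno i' (by simp [hJ, hi']) hj'
            obtain ⟨i', hi'J, hi'S⟩ := hex
            have hdis := h3 i i' hi'S
            have hbi : J.biUnion (fun i' => S i ∩ S i') = (J.erase i').biUnion (fun i' => S i ∩ S i') := by
              ext j
              simp only [Finset.mem_biUnion, Finset.mem_erase]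
              constructor
              · rintro ⟨q, hq, hjq⟩
                refine ⟨q, ⟨?_, hq⟩, hjq⟩
                rintro rfl
                rw [Finset.disjoint_iff_inter_eq_empty.1 hdis] at hjq
                simp at hjq
              · rintro ⟨q, ⟨_, hq⟩, hjq⟩
                exact ⟨q, hq, hjq⟩
            rw [hbi] at hle2 hle
            have hle3 := hcount i (J.erase i') (fun h => hiJ (Finset.mem_of_mem_erase h))
            have hle4 : (J.erase i').card = J.card - 1 := Finset.card_erase_of_mem hi'J
            have hJpos : 0 < J.card := Finset.card_pos.2 ⟨i', hi'J⟩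
            have hle5 : (T ∩ S i).card ≤ T.card := Finset.card_le_card Finset.inter_subset_left
            omega
        rw [hE i, if_neg (by omega), mul_zero]
  unfold fun0 hpart
  rw [← Finset.sum_add_distrib]
  exact Finset.sum_eq_zero (fun i _ => key i)

/-- The linear change of coordinates `(t, m) ↦ (y, m)` at the level of sums. -/
lemma sum_change (G : (I → ZMod 2) → (I → ZMod 2) → ℤ) :
    (∑ x : I ⊕ I → ZMod 2, G (yv S x) (fun i => x (Sum.inr i))) =
      ∑ y : I → ZMod 2, ∑ m : I → ZMod 2, G y m := by
  have h1 : (∑ x : I ⊕ I → ZMod 2, G (yv S x) (fun i => x (Sum.inr i))) =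
      ∑ p : (I → ZMod 2) × (I → ZMod 2), G (fun j => p.1 j + shiftv S p.2 j) p.2 := by
    refine Fintype.sum_equiv (Equiv.sumArrowEquivProdArrow I I (ZMod 2)) _ _ ?_
    intro x
    rfl
  rw [h1, Fintype.sum_prod_type, Finset.sum_comm]
  rw [Finset.sum_comm (s := (Finset.univ : Finset (I → ZMod 2)))
    (t := (Finset.univ : Finset (I → ZMod 2))) (f := fun y m => G y m)]
  apply Finset.sum_congr rfl
  intro m _
  exact Fintype.sum_equiv (Equiv.addRight (shiftv S m)) _ _ (fun t => rfl)

lemma inner_sum (c : I → ZMod 2) :
    (∑ m : I → ZMod 2, chi (∑ i, m i * c i)) = if (∀ i, c i = 0) then 2 ^ (Fintype.card I) else 0 := by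
  have h1 : (∑ m : I → ZMod 2, chi (∑ i, m i * c i)) = ∏ i, ∑ b : ZMod 2, chi (b * c i) := by
    rw [Finset.prod_univ_sum, Fintype.piFinset_univ]
    apply Finset.sum_congr rfl
    intro m _
    rw [chi_sum]
  rw [h1]
  simp only [chi_pair]
  split_ifs with h
  · rw [Finset.prod_congr rfl (fun i _ => if_pos (h i))]
    simp [Finset.prod_const]
  · push Not at h
    obtain ⟨i, hi⟩ := h
    exact Finset.prod_eq_zero (Finset.mem_univ i) (if_neg hi)

/-- The function is bent. -/
lemma fun0_bent (a : ℕ) (α : I ⊕ I → ZMod 2) :
    (∑ x : I ⊕ I → ZMod 2, chi (fun0 S σ a x + ∑ i, α i * x i)) ^ 2 =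
      2 ^ (Fintype.card (I ⊕ I)) := by
  set δ : I → ZMod 2 := fun i => α (Sum.inr i) + ∑ j, if j ∈ S i then α (Sum.inl j) else 0 with hδ
  have h1 : (∑ x : I ⊕ I → ZMod 2, chi (fun0 S σ a x + ∑ i, α i * x i)) =
      ∑ x : I ⊕ I → ZMod 2,
        (fun y m => chi (hpart S σ a y + ∑ j, α (Sum.inl j) * y j) *
          chi (∑ i, m i * (y (σ i) + δ i))) (yv S x) (fun i => x (Sum.inr i)) := by
    apply Finset.sum_congr rfl
    intro x _
    change _ = chi (hpart S σ a (yv S x) + ∑ j, α (Sum.inl j) * yv S x j) *
          chi (∑ i, x (Sum.inr i) * (yv S x (σ i) + δ i))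
    rw [← chi_add]
    congr 1
    unfold fun0
    rw [Fintype.sum_sum_type]
    have e1 : ∑ i, x (Sum.inr i) * (yv S x (σ i) + δ i) =
        ∑ i, x (Sum.inr i) * yv S x (σ i) + ∑ i, α (Sum.inr i) * x (Sum.inr i) +
          ∑ i, ∑ j, (if j ∈ S i then x (Sum.inr i) * α (Sum.inl j) else 0) := by
      rw [← Finset.sum_add_distrib, ← Finset.sum_add_distrib]
      apply Finset.sum_congr rfl
      intro i _
      rw [hδ]
      simp only [mul_add, Finset.mul_sum, mul_ite, mul_zero]
      ring
    have e2 : ∑ j, α (Sum.inl j) * yv S x j = ∑ j, α (Sum.inl j) * x (Sum.inl j) +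
        ∑ i, ∑ j, (if j ∈ S i then x (Sum.inr i) * α (Sum.inl j) else 0) := by
      rw [Finset.sum_comm (f := fun i j => if j ∈ S i then x (Sum.inr i) * α (Sum.inl j) else 0),
        ← Finset.sum_add_distrib]
      apply Finset.sum_congr rfl
      intro j _
      unfold yv shiftv
      rw [mul_add, Finset.mul_sum]
      congr 1
      apply Finset.sum_congr rfl
      intro i _
      split_ifs
      · ring
      · ring
    rw [e1, e2]
    have hz : ∀ z : ZMod 2, z + z = 0 := by decide
    generalize hX : ∑ i, ∑ j, (if j ∈ S i then x (Sum.inr i) * α (Sum.inl j) else 0) = X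
    have hXX := hz X
    linear_combination (-1 : ZMod 2) * hXX
  rw [h1, sum_change S (fun y m => chi (hpart S σ a y + ∑ j, α (Sum.inl j) * y j) *
          chi (∑ i, m i * (y (σ i) + δ i)))]
  have h2 : ∀ y : I → ZMod 2, (∑ m : I → ZMod 2, chi (hpart S σ a y + ∑ j, α (Sum.inl j) * y j) *
          chi (∑ i, m i * (y (σ i) + δ i))) =
      if y = δ ∘ σ.symm then chi (hpart S σ a y + ∑ j, α (Sum.inl j) * y j) *
        2 ^ (Fintype.card I) else 0 := by
    intro y
    rw [← Finset.mul_sum, inner_sum]
    have hiff : (∀ i, y (σ i) + δ i = 0) ↔ y = δ ∘ σ.symm := by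
      have hz : ∀ u v : ZMod 2, u + v = 0 ↔ u = v := by decide
      constructor
      · intro h
        funext j
        have := (hz _ _).1 (h (σ.symm j))
        simpa using this
      · rintro rfl i
        rw [hz]
        simp
    by_cases hc : y = δ ∘ σ.symm
    · rw [if_pos hc, if_pos (hiff.2 hc)]
    · rw [if_neg hc, if_neg (fun h => hc (hiff.1 h)), mul_zero]
  simp only [h2]
  rw [Finset.sum_ite_eq' Finset.univ (δ ∘ σ.symm)]
  rw [if_pos (Finset.mem_univ _), mul_pow, chi_sq, one_mul, ← pow_mul, Fintype.card_sum]
  congr 1
  ring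

/-- The construction gives homogeneous bent functions of degree `2 ^ a + 1`. -/
theorem hasHomBent_of_system (a : ℕ)
    (h1 : ∀ i, (S i).card = 2 ^ (a + 1) - 1)
    (h2 : ∀ i j, i ≠ j → (S i ∩ S j).card ≤ 1)
    (h3 : ∀ i j, σ i ∈ S j → Disjoint (S i) (S j)) :
    HasHomBent (I ⊕ I) (2 ^ a + 1) := by
  obtain ⟨P, hP1, hP2⟩ := Rep.homog (rep_fun0 S σ a)
    (fun A hA => fun0_vanish S σ a h1 h2 h3 A hA)
  refine ⟨P, hP1, fun α => ?_⟩
  rw [← fun0_bent S σ a α]
  congr 1
  apply Finset.sum_congr rfl
  intro x _
  rw [hP2 x]
  rfl

end main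

end Run7.h832.HomBent
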